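import Mathlib

set_option autoImplicit false

/-!
# Erdős–Pósa type properties of group-labelled cycles fail for sets that are thin in one direction

A set `A` in an abelian group `Γ` is called avoidable if for every finite `Y ⊆ Γ` and every `N` there
is a `z ∈ Γ` with `y + n z ∉ A` for all `y ∈ Y` and all `1 ≤ n ≤ N`. For a nonempty avoidable `A` the
property `EP_s` fails for every `s ≥ 1`.
-/

namespace Pool.Agent.Results.MP_45fa85_co.OneSidedThin

open SimpleGraph

universe u

/-- The `γ`-value of a closed walk (a cycle): the sum of the labels of its edges. Only the labels of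
edges of `G` matter. -/
def value {V : Type} {Γ : Type u} [AddCommGroup Γ] {G : SimpleGraph V} (γ : Sym2 V → Γ) {v : V}
    (w : G.Walk v v) : Γ := (w.edges.map γ).sum

/-- A cycle of `G` whose `γ`-value lies in `A`. -/
structure ACycle {V : Type} {Γ : Type u} [AddCommGroup Γ] (G : SimpleGraph V) (γ : Sym2 V → Γ)
    (A : Set Γ) where
  /-- a vertex of the cycle -/
  base : V
  /-- the cycle as a closed walk -/
  walk : G.Walk base base
  isCycle : walk.IsCycle
  mem : value γ walk ∈ A

open Classical in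
/-- The property `EP_s` of the pair `(Γ, A)`: there is `f : ℕ → ℕ` such that for each finite
`Γ`-labelled graph and each `k ≥ 1` there are either `k` different cycles with value in `A` such that
every vertex lies in less than `s` (that is, at most `s - 1`) of them, or a set of at most `f k`
vertices which meets all the cycles with value in `A`. -/
def EP {Γ : Type u} [AddCommGroup Γ] (A : Set Γ) (s : ℕ) : Prop :=
  ∃ f : ℕ → ℕ, ∀ (V : Type) [Fintype V] (G : SimpleGraph V) (γ : Sym2 V → Γ) (k : ℕ), 1 ≤ k →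
    (∃ c : Fin k → ACycle G γ A,
      Function.Injective (fun i => {e : Sym2 V | e ∈ (c i).walk.edges}) ∧
      ∀ v : V, (Finset.univ.filter (fun i => v ∈ (c i).walk.support)).card < s) ∨
    (∃ S : Finset V, S.card ≤ f k ∧ ∀ c : ACycle G γ A, ∃ v ∈ S, v ∈ c.walk.support)

/-- `A` is avoidable: for every finite set `Y` and every `N` some `z` satisfies `y + n z ∉ A` for all
`y ∈ Y` and all `1 ≤ n ≤ N`. -/
def Avoidable {Γ : Type u} [AddCommGroup Γ] (A : Set Γ) : Prop :=
  ∀ (Y : Finset Γ) (N : ℕ), ∃ z : Γ, ∀ y ∈ Y, ∀ n : ℕ, 1 ≤ n → n ≤ N → y + n • z ∉ A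

/-! ### The graph of a digraph -/

section graph

variable {W : Type} [DecidableEq W] [Fintype W] {Γ : Type u} [AddCommGroup Γ]

/-- The bipartite graph of a digraph: every node `x` has an in-vertex `(x, false)` and an out-vertex
`(x, true)`, joined by an edge, and every arc `x → y` gives the edge `(x, true) (y, false)`. -/
def HG (R : W → W → Prop) : SimpleGraph (W × Bool) where
  Adj u v := (u.1 = v.1 ∧ u.2 ≠ v.2) ∨ (u.2 = true ∧ v.2 = false ∧ R u.1 v.1) ∨
    (u.2 = false ∧ v.2 = true ∧ R v.1 u.1)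
  symm := ⟨fun u v h => by
    rcases h with ⟨h1, h2⟩ | ⟨h1, h2, h3⟩ | ⟨h1, h2, h3⟩
    · exact Or.inl ⟨h1.symm, h2.symm⟩
    · exact Or.inr (Or.inr ⟨h2, h1, h3⟩)
    · exact Or.inr (Or.inl ⟨h2, h1, h3⟩)⟩
  loopless := ⟨fun u h => by
    rcases h with ⟨_, h2⟩ | ⟨h1, h2, _⟩ | ⟨h1, h2, _⟩
    · exact h2 rfl
    · rw [h1] at h2; exact absurd h2 (by decide)
    · rw [h1] at h2; exact absurd h2 (by decide)⟩

/-- The edge of a node. -/
def me (x : W) : Sym2 (W × Bool) := s((x, false), (x, true))

/-- The labelling: `w x - X` on the edge of the node `x` and `X` on the other edges. -/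
def lab (w : W → Γ) (X : Γ) (e : Sym2 (W × Bool)) : Γ :=
  X + ∑ x : W, if e = me x then w x - (2 : ℕ) • X else 0

lemma me_inj {x y : W} (h : me x = me y) : x = y := by
  unfold me at h
  rw [Sym2.eq_iff] at h
  rcases h with ⟨h1, _⟩ | ⟨h1, _⟩
  · exact (Prod.mk.inj h1).1
  · exact (Prod.mk.inj h1).1

lemma lab_me (w : W → Γ) (X : Γ) (x : W) : lab w X (me x) = w x - X := by
  unfold lab
  rw [Finset.sum_eq_single x]
  · rw [if_pos rfl]
    module
  · intro y _ hy
    rw [if_neg (fun h => hy (me_inj h).symm)]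
  · intro h
    exact absurd (Finset.mem_univ x) h

lemma lab_off (w : W → Γ) (X : Γ) {x y : W} (hxy : x ≠ y) :
    lab w X s((x, true), (y, false)) = X := by
  unfold lab
  rw [Finset.sum_eq_zero, add_zero]
  intro z _
  rw [if_neg]
  intro h
  unfold me at h
  rw [Sym2.eq_iff] at h
  rcases h with ⟨h1, h2⟩ | ⟨h1, h2⟩
  · exact absurd (Prod.mk.inj h1).2 (by decide)
  · exact hxy ((Prod.mk.inj h1).1.trans (Prod.mk.inj h2).1.symm)

/-- The nodes whose edges are in the list. -/
def nodes (l : List (Sym2 (W × Bool))) : Finset W := Finset.univ.filter (fun x => me x ∈ l)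

lemma sum_lab (w : W → Γ) (X : Γ) {l : List (Sym2 (W × Bool))} (hl : l.Nodup) :
    (l.map (lab w X)).sum = l.length • X + ∑ x ∈ nodes l, (w x - (2 : ℕ) • X) := by
  have h1 : (l.map (lab w X)).sum = ∑ e ∈ l.toFinset, lab w X e := (List.sum_toFinset _ hl).symm
  rw [h1]
  unfold lab
  rw [Finset.sum_add_distrib, Finset.sum_const, List.toFinset_card_of_nodup hl, Finset.sum_comm,
    nodes, Finset.sum_filter]
  congr 1
  refine Finset.sum_congr rfl fun x _ => ?_
  rw [Finset.sum_ite_eq']
  simp only [List.mem_toFinset]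

lemma mem_tail {V : Type} {G : SimpleGraph V} {u : V} {c : G.Walk u u} (hc : c.IsCycle) {v : V}
    (hv : v ∈ c.support) : v ∈ c.support.tail := by
  rw [← c.cons_tail_support, List.mem_cons] at hv
  rcases hv with rfl | hv
  · exact Walk.end_mem_tail_support hc.not_nil
  · exact hv

lemma nodes_prod_subset {R : W → W → Prop} {u : W × Bool} {c : (HG R).Walk u u} (hc : c.IsCycle) :
    nodes c.edges ×ˢ (Finset.univ : Finset Bool) ⊆ c.support.tail.toFinset := by
  intro v hv
  obtain ⟨x, b⟩ := v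
  have hx : me x ∈ c.edges := (Finset.mem_filter.1 (Finset.mem_product.1 hv).1).2
  rw [List.mem_toFinset]
  refine mem_tail hc ?_
  cases b
  · exact Walk.fst_mem_support_of_mem_edges c hx
  · exact Walk.snd_mem_support_of_mem_edges c hx

lemma card_tail {V : Type} [DecidableEq V] {G : SimpleGraph V} {u : V} {c : G.Walk u u}
    (hc : c.IsCycle) : c.support.tail.toFinset.card = c.length := by
  rw [List.toFinset_card_of_nodup hc.support_nodup, List.length_tail, Walk.length_support]
  rfl

lemma two_mul_card_le {R : W → W → Prop} {u : W × Bool} {c : (HG R).Walk u u} (hc : c.IsCycle) :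
    2 * (nodes c.edges).card ≤ c.length := by
  have h := Finset.card_le_card (nodes_prod_subset hc)
  rw [Finset.card_product, card_tail hc, Finset.card_univ, Fintype.card_bool] at h
  omega

lemma mem_nodes_of_eq {R : W → W → Prop} {u : W × Bool} {c : (HG R).Walk u u} (hc : c.IsCycle)
    (h : c.length = 2 * (nodes c.edges).card) {v : W × Bool} (hv : v ∈ c.support) :
    v.1 ∈ nodes c.edges := by
  have h1 : nodes c.edges ×ˢ (Finset.univ : Finset Bool) = c.support.tail.toFinset := by
    refine Finset.eq_of_subset_of_card_le (nodes_prod_subset hc) ?_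
    rw [Finset.card_product, card_tail hc, Finset.card_univ, Fintype.card_bool, h]
    omega
  have h2 : v ∈ nodes c.edges ×ˢ (Finset.univ : Finset Bool) := by
    rw [h1, List.mem_toFinset]
    exact mem_tail hc hv
  exact (Finset.mem_product.1 h2).1

/-- In a cycle which alternates every node has an arc of the digraph to another node. -/
lemma exists_arc {R : W → W → Prop} {u : W × Bool} {c : (HG R).Walk u u} (hc : c.IsCycle)
    (h : c.length = 2 * (nodes c.edges).card) {x : W} (hx : x ∈ nodes c.edges) :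
    ∃ y ∈ nodes c.edges, R x y := by
  have hxe : me x ∈ c.edges := (Finset.mem_filter.1 hx).2
  have hs : (x, true) ∈ c.support := Walk.snd_mem_support_of_mem_edges c hxe
  have h2 := hc.ncard_neighborSet_toSubgraph_eq_two hs
  have h3 : 1 < (c.toSubgraph.neighborSet (x, true)).ncard := by omega
  obtain ⟨v, hv, hne⟩ := Set.exists_ne_of_one_lt_ncard h3 ((x, false) : W × Bool)
  have hadj : c.toSubgraph.Adj (x, true) v := hv
  have hadj2 := c.toSubgraph.adj_sub hadj
  have hve : v ∈ c.support := by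
    have := (Walk.adj_toSubgraph_iff_mem_edges).1 hadj
    exact Walk.snd_mem_support_of_mem_edges c this
  refine ⟨v.1, mem_nodes_of_eq hc h hve, ?_⟩
  rcases hadj2 with ⟨h1, h3⟩ | ⟨_, _, h4⟩ | ⟨h1, _, _⟩
  · exfalso
    apply hne
    obtain ⟨v1, v2⟩ := v
    have h5 : x = v1 := h1
    have h6 : v2 = false := by
      cases v2
      · rfl
      · exact absurd rfl h3
    rw [← h5, h6]
  · exact h4
  · exact Bool.noConfusion (show true = false from h1)

/-- Paths through given nodes. -/
lemma exists_path {R : W → W → Prop} (w : W → Γ) (X : Γ) (l : List W) : ∀ x : W,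
    (x :: l).Nodup → (x :: l).Pairwise R →
    ∃ (y : W) (p : (HG R).Walk (x, true) (y, true)), (y = x ∨ y ∈ l) ∧ (l ≠ [] → y ∈ l) ∧
      p.IsPath ∧ (∀ v ∈ p.support, v = (x, true) ∨ v.1 ∈ l) ∧
      (p.edges.map (lab w X)).sum = (l.map w).sum := by
  induction l with
  | nil =>
    intro x _ _
    exact ⟨x, Walk.nil, Or.inl rfl, fun h => absurd rfl h, by simp, by simp, by simp⟩
  | cons x' l ih =>
    intro x hnd hpw
    have hnd' : (x' :: l).Nodup := (List.nodup_cons.1 hnd).2
    have hx : x ∉ x' :: l := (List.nodup_cons.1 hnd).1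
    have hx' : x' ∉ l := (List.nodup_cons.1 hnd').1
    have hpw' := List.pairwise_cons.1 hpw
    obtain ⟨y, p, hy, _, hp, hsup, hsum⟩ := ih x' hnd' hpw'.2
    have hne : x ≠ x' := fun h => hx (by rw [h]; exact List.mem_cons_self)
    have hR : R x x' := hpw'.1 x' List.mem_cons_self
    have a1 : (HG R).Adj (x, true) (x', false) := Or.inr (Or.inl ⟨rfl, rfl, hR⟩)
    have a2 : (HG R).Adj (x', false) (x', true) := Or.inl ⟨rfl, by simp⟩
    have hy' : y ∈ x' :: l := by
      rcases hy with rfl | hy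
      · exact List.mem_cons_self
      · exact List.mem_cons_of_mem _ hy
    refine ⟨y, Walk.cons a1 (Walk.cons a2 p), Or.inr hy', fun _ => hy', ?_, ?_, ?_⟩
    · rw [Walk.cons_isPath_iff, Walk.cons_isPath_iff]
      refine ⟨⟨hp, ?_⟩, ?_⟩
      · intro h
        rcases hsup _ h with h1 | h1
        · exact absurd (Prod.mk.inj h1).2 (by decide)
        · exact hx' h1
      · rw [Walk.support_cons, List.mem_cons]
        rintro (h | h)
        · exact absurd (Prod.mk.inj h).2 (by decide)
        · rcases hsup _ h with h1 | h1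
          · exact hne (Prod.mk.inj h1).1
          · exact hx (List.mem_cons_of_mem _ h1)
    · intro v hv
      rw [Walk.support_cons, List.mem_cons, Walk.support_cons, List.mem_cons] at hv
      rcases hv with rfl | rfl | hv
      · exact Or.inl rfl
      · exact Or.inr List.mem_cons_self
      · rcases hsup v hv with h1 | h1
        · right; rw [h1]; exact List.mem_cons_self
        · exact Or.inr (List.mem_cons_of_mem _ h1)
    · rw [Walk.edges_cons, Walk.edges_cons]
      simp only [List.map_cons, List.sum_cons]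
      rw [lab_off w X hne, hsum]
      have : lab w X s((x', false), (x', true)) = w x' - X := lab_me w X x'
      rw [this]
      abel

/-- Cycles through given nodes. -/
lemma exists_cycle {R : W → W → Prop} (w : W → Γ) (X : Γ) (l : List W) (x : W) (hl : l ≠ [])
    (hnd : (x :: l).Nodup) (hpw : (x :: l).Pairwise R) (hback : ∀ y ∈ l, R y x) :
    ∃ (v : W × Bool) (c : (HG R).Walk v v), c.IsCycle ∧ (∀ v ∈ c.support, v.1 ∈ x :: l) ∧
      value (lab w X) c = w x + (l.map w).sum := by
  obtain ⟨y, p, _, hy, hp, hsup, hsum⟩ := exists_path w X l x hnd hpw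
  have hyl := hy hl
  have hx : x ∉ l := (List.nodup_cons.1 hnd).1
  have hyx : y ≠ x := fun h => hx (h ▸ hyl)
  have a1 : (HG R).Adj (x, false) (x, true) := Or.inl ⟨rfl, by simp⟩
  have a2 : (HG R).Adj (y, true) (x, false) := Or.inr (Or.inl ⟨rfl, rfl, hback y hyl⟩)
  have hxf : ((x, false) : W × Bool) ∉ p.support := by
    intro h
    rcases hsup _ h with h1 | h1
    · exact absurd (Prod.mk.inj h1).2 (by decide)
    · exact hx h1
  refine ⟨(y, true), Walk.cons a2 (Walk.cons a1 p), ?_, ?_, ?_⟩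
  · rw [Walk.cons_isCycle_iff]
    refine ⟨by rw [Walk.cons_isPath_iff]; exact ⟨hp, hxf⟩, ?_⟩
    rw [Walk.edges_cons, List.mem_cons, not_or]
    refine ⟨?_, ?_⟩
    · intro h
      rw [Sym2.eq_iff] at h
      rcases h with ⟨h1, _⟩ | ⟨h1, _⟩
      · exact hyx (Prod.mk.inj h1).1
      · exact hyx (Prod.mk.inj h1).1
    · intro h
      exact hxf (Walk.snd_mem_support_of_mem_edges p h)
  · intro v hv
    rw [Walk.support_cons, List.mem_cons, Walk.support_cons, List.mem_cons] at hv
    rcases hv with rfl | rfl | hv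
    · exact List.mem_cons_of_mem _ hyl
    · exact List.mem_cons_self
    · rcases hsup v hv with h1 | h1
      · rw [h1]; exact List.mem_cons_self
      · exact List.mem_cons_of_mem _ h1
  · unfold value
    rw [Walk.edges_cons, Walk.edges_cons]
    simp only [List.map_cons, List.sum_cons]
    have h1 : lab w X s((x, false), (x, true)) = w x - X := lab_me w X x
    rw [lab_off w X hyx, hsum, h1]
    abel

end graph

/-! ### The digraph -/

section main

variable {Γ : Type u} [AddCommGroup Γ]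

/-- The left vertices of a set. -/
def leftPart {n₁ n₂ : ℕ} (F : Finset (Fin n₁ ⊕ Fin n₂)) : Finset (Fin n₁ ⊕ Fin n₂) :=
  F.filter (fun x => x.isLeft = true)

lemma card_leftPart_le {n₁ n₂ : ℕ} (F : Finset (Fin n₁ ⊕ Fin n₂)) :
    (leftPart F).card ≤ n₁ := by
  have h : leftPart F ⊆ (Finset.univ : Finset (Fin n₁)).map Function.Embedding.inl := by
    intro x hx
    rcases x with x | x
    · simp
    · simp [leftPart] at hx
  calc (leftPart F).card ≤ _ := Finset.card_le_card h
    _ = n₁ := by simp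

lemma card_rightPart_le {n₁ n₂ : ℕ} (F : Finset (Fin n₁ ⊕ Fin n₂)) :
    (F.filter (fun x => ¬ x.isLeft = true)).card ≤ n₂ := by
  have h : F.filter (fun x => ¬ x.isLeft = true) ⊆
      (Finset.univ : Finset (Fin n₂)).map Function.Embedding.inr := by
    intro x hx
    rcases x with x | x
    · simp at hx
    · simp
  calc (F.filter (fun x => ¬ x.isLeft = true)).card ≤ _ := Finset.card_le_card h
    _ = n₂ := by simp

/-- The vertex weights. -/
def wt {n₁ n₂ : ℕ} (g h : Γ) : Fin n₁ ⊕ Fin n₂ → Γ := fun x => if x.isLeft = true then g else h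

lemma sum_wt {n₁ n₂ : ℕ} (α β : Γ) (F : Finset (Fin n₁ ⊕ Fin n₂)) :
    ∑ x ∈ F, wt α β x = (leftPart F).card • α +
      (F.filter (fun x => ¬ x.isLeft = true)).card • β := by
  rw [← Finset.sum_filter_add_sum_filter_not F (fun x => x.isLeft = true)]
  congr 1
  · rw [leftPart, ← Finset.sum_const]
    refine Finset.sum_congr rfl fun x hx => ?_
    simp [wt, (Finset.mem_filter.1 hx).2]
  · rw [← Finset.sum_const]
    refine Finset.sum_congr rfl fun x hx => ?_
    simp [wt, (Finset.mem_filter.1 hx).2]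

/-- The digraph: the left nodes are linearly ordered, and there are arcs in both directions between
the left nodes and the right nodes. -/
def RR (L T : ℕ) : Fin L ⊕ Fin T → Fin L ⊕ Fin T → Prop
  | Sum.inl i, Sum.inl j => i < j
  | Sum.inl _, Sum.inr _ => True
  | Sum.inr _, Sum.inl _ => True
  | Sum.inr _, Sum.inr _ => False

/-- The choice of the parameters. -/
lemma exists_param {A : Set Γ} (hav : Avoidable A) (a : Γ) (m L T : ℕ) :
    ∃ g X : Γ, (∀ P Q : ℕ, P < m → 1 ≤ Q → Q ≤ T → P • g + Q • (a - m • g) ∉ A) ∧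
      ∀ P Q n : ℕ, P ≤ L → Q ≤ T → 1 ≤ n → n ≤ 2 * (L + T) →
        P • g + Q • (a - m • g) + n • X ∉ A := by
  classical
  obtain ⟨ζ, hζ⟩ := hav ((Finset.range (T + 1)).image (fun q => q • a)) (m * T)
  obtain ⟨X, hX⟩ := hav ((Finset.range (L + 1) ×ˢ Finset.range (T + 1)).image
    (fun p => p.1 • (-ζ) + p.2 • (a - m • (-ζ)))) (2 * (L + T))
  refine ⟨-ζ, X, fun P Q hP hQ1 hQ hmem => ?_, fun P Q n hP hQ hn1 hn => ?_⟩
  · have h1 : m * 1 ≤ m * Q := Nat.mul_le_mul_left m hQ1
    have h2 : m * Q ≤ m * T := Nat.mul_le_mul_left m hQ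
    refine hζ (Q • a) (Finset.mem_image.2 ⟨Q, Finset.mem_range.2 (by omega), rfl⟩) (m * Q - P)
      (by omega) (by omega) ?_
    have e : Q • a + (m * Q - P) • ζ = P • (-ζ) + Q • (a - m • (-ζ)) := by
      simp only [← natCast_zsmul]
      rw [Nat.cast_sub (by omega), Nat.cast_mul]
      module
    rw [e]
    exact hmem
  · exact hX _ (Finset.mem_image.2 ⟨(P, Q), Finset.mem_product.2
      ⟨Finset.mem_range.2 (by omega), Finset.mem_range.2 (by omega)⟩, rfl⟩) n hn1 hn

lemma cycle_struct {A : Set Γ} {a g X : Γ} {m L T : ℕ}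
    (h1 : ∀ P Q : ℕ, P < m → 1 ≤ Q → Q ≤ T → P • g + Q • (a - m • g) ∉ A)
    (h2 : ∀ P Q n : ℕ, P ≤ L → Q ≤ T → 1 ≤ n → n ≤ 2 * (L + T) →
        P • g + Q • (a - m • g) + n • X ∉ A)
    {u : (Fin L ⊕ Fin T) × Bool} {c : (HG (RR L T)).Walk u u} (hc : c.IsCycle)
    (hA : value (lab (wt g (a - m • g)) X) c ∈ A) : m ≤ (leftPart (nodes c.edges)).card := by
  have hle := two_mul_card_le hc
  have hlen : c.length ≤ 2 * (L + T) := by
    rw [← card_tail hc]
    refine (Finset.card_le_univ _).trans ?_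
    simp [mul_comm]
  set D := nodes c.edges with hD
  have hP : (leftPart D).card ≤ L := card_leftPart_le D
  have hQ := card_rightPart_le D
  have hval : value (lab (wt g (a - m • g)) X) c =
      (leftPart D).card • g + (D.filter (fun x => ¬ x.isLeft = true)).card • (a - m • g) +
        (c.length - 2 * D.card) • X := by
    unfold value
    rw [sum_lab _ _ hc.edges_nodup, Walk.length_edges, ← hD, Finset.sum_sub_distrib, sum_wt,
      Finset.sum_const]
    obtain ⟨n, hn⟩ := Nat.exists_eq_add_of_le hle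
    rw [hn, Nat.add_sub_cancel_left]
    module
  rw [hval] at hA
  have heq : c.length = 2 * D.card := by
    by_contra hne
    exact h2 _ _ _ hP hQ (by omega) (by omega) hA
  rw [heq, Nat.sub_self, zero_smul, add_zero] at hA
  have hQ1 : 1 ≤ (D.filter (fun x => ¬ x.isLeft = true)).card := by
    by_contra hlt
    have h0 : (D.filter (fun x => ¬ x.isLeft = true)) = ∅ := Finset.card_eq_zero.1 (by omega)
    have hDne : D.Nonempty := by
      rw [← Finset.card_pos]
      have := hc.three_le_length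
      omega
    obtain ⟨x, hx, hmax⟩ := Finset.exists_max_image D
      (fun x => Sum.elim (fun i : Fin L => i.val) (fun _ : Fin T => 0) x) hDne
    obtain ⟨y, hy, hR⟩ := exists_arc hc heq hx
    have hleft : ∀ z ∈ D, z.isLeft = true := by
      intro z hz
      by_contra hz'
      have : z ∈ (D.filter (fun x => ¬ x.isLeft = true)) := Finset.mem_filter.2 ⟨hz, hz'⟩
      rw [h0] at this
      exact absurd this (Finset.notMem_empty z)
    have hxl := hleft x hx
    have hyl := hleft y hy
    have hm := hmax y hy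
    rcases x with i | i
    · rcases y with j | j
      · have h3 : i < j := hR
        have h4 : j.val ≤ i.val := hm
        exact absurd h3 (not_lt.2 h4)
      · exact Bool.noConfusion (show false = true from hyl)
    · exact Bool.noConfusion (show false = true from hxl)
  by_contra hlt
  exact h1 _ _ (by omega) hQ1 hQ hA

/-- For a nonempty avoidable `A` the property `EP_s` fails for every `s ≥ 1`. -/
theorem not_EP {A : Set Γ} (hne : A.Nonempty) (hav : Avoidable A) (s : ℕ) (hs : 1 ≤ s) :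
    ¬ EP A s := by
  classical
  rintro ⟨f, hf⟩
  obtain ⟨a, ha⟩ := hne
  set t := f (2 * s) with ht
  set m := t + 1 with hm
  obtain ⟨g, X, h1, h2⟩ := exists_param hav a m (2 * m - 1) (t + 1)
  rcases hf ((Fin (2 * m - 1) ⊕ Fin (t + 1)) × Bool) (HG (RR (2 * m - 1) (t + 1)))
    (lab (wt g (a - m • g)) X) (2 * s) (by omega) with ⟨c, _, hc⟩ | ⟨S, hS, hhit⟩
  · -- no packing
    have hcard : ∀ i, m ≤ (leftPart (nodes (c i).walk.edges)).card := fun i =>
      cycle_struct h1 h2 (c i).isCycle (c i).mem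
    have hsum : 2 * s * m ≤ ∑ i : Fin (2 * s), (leftPart (nodes (c i).walk.edges)).card := by
      calc 2 * s * m = ∑ i : Fin (2 * s), m := by simp
        _ ≤ _ := Finset.sum_le_sum fun i _ => hcard i
    have hswap : ∑ i : Fin (2 * s), (leftPart (nodes (c i).walk.edges)).card ≤
        ∑ v ∈ leftPart (Finset.univ : Finset (Fin (2 * m - 1) ⊕ Fin (t + 1))), (s - 1) := by
      have h1 : ∀ i : Fin (2 * s), (leftPart (nodes (c i).walk.edges)).card =
          ∑ v ∈ leftPart (Finset.univ : Finset (Fin (2 * m - 1) ⊕ Fin (t + 1))),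
            if v ∈ nodes (c i).walk.edges then 1 else 0 := by
        intro i
        rw [← Finset.card_filter]
        congr 1
        ext v
        simp only [leftPart, Finset.mem_filter, Finset.mem_univ, true_and]
        tauto
      rw [Finset.sum_congr rfl (fun i _ => h1 i), Finset.sum_comm]
      refine Finset.sum_le_sum fun v _ => ?_
      rw [← Finset.card_filter]
      have h3 : (Finset.univ.filter (fun i => v ∈ nodes (c i).walk.edges)).card < s := by
        have hcv : (Finset.univ.filter (fun i => (v, true) ∈ (c i).walk.support)).card < s := by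
          convert hc (v, true)
        refine lt_of_le_of_lt (Finset.card_le_card fun i hi => ?_) hcv
        rw [Finset.mem_filter] at hi ⊢
        exact ⟨hi.1, Walk.snd_mem_support_of_mem_edges _ (Finset.mem_filter.1 hi.2).2⟩
      omega
    rw [Finset.sum_const, smul_eq_mul] at hswap
    have h4 := card_leftPart_le (Finset.univ : Finset (Fin (2 * m - 1) ⊕ Fin (t + 1)))
    have h5 : 2 * s * m ≤ (2 * m - 1) * (s - 1) :=
      le_trans hsum (le_trans hswap (Nat.mul_le_mul_right _ h4))
    obtain ⟨s', rfl⟩ : ∃ s', s = s' + 1 := ⟨s - 1, by omega⟩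
    have h6 : (2 * m - 1) * (s' + 1 - 1) ≤ 2 * m * s' := by
      simp only [Nat.add_sub_cancel]
      exact Nat.mul_le_mul_right _ (by omega)
    have h7 : 2 * (s' + 1) * m = 2 * m * s' + 2 * m := by ring
    omega
  · -- no small hitting set
    set K : Finset (Fin (2 * m - 1) ⊕ Fin (t + 1)) := S.image Prod.fst with hK
    have hKc : K.card ≤ t := Finset.card_image_le.trans hS
    have hL2 : m ≤ ((Finset.univ : Finset (Fin (2 * m - 1))).filter
        (fun i => (Sum.inl i : Fin (2 * m - 1) ⊕ Fin (t + 1)) ∉ K)).card := by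
      have e1 := Finset.card_filter_add_card_filter_not
        (s := (Finset.univ : Finset (Fin (2 * m - 1))))
        (fun i => (Sum.inl i : Fin (2 * m - 1) ⊕ Fin (t + 1)) ∈ K)
      have e2 : ((Finset.univ : Finset (Fin (2 * m - 1))).filter
        (fun i => (Sum.inl i : Fin (2 * m - 1) ⊕ Fin (t + 1)) ∈ K)).card ≤ K.card := by
        refine Finset.card_le_card_of_injOn Sum.inl ?_ Sum.inl_injective.injOn
        intro i hi
        exact (Finset.mem_filter.1 (Finset.mem_coe.1 hi)).2
      rw [Finset.card_univ, Fintype.card_fin] at e1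
      omega
    obtain ⟨W, hW, hWc⟩ := Finset.exists_subset_card_eq hL2
    obtain ⟨r, hr⟩ : ∃ r : Fin (t + 1), (Sum.inr r : Fin (2 * m - 1) ⊕ Fin (t + 1)) ∉ K := by
      by_contra hcon
      push Not at hcon
      have h1 : (Finset.univ : Finset (Fin (t + 1))).map
          (Function.Embedding.inr : _ ↪ Fin (2 * m - 1) ⊕ Fin (t + 1)) ⊆ K := by
        intro x hx
        rw [Finset.mem_map] at hx
        obtain ⟨y, _, rfl⟩ := hx
        exact hcon y
      have h2 := Finset.card_le_card h1
      simp at h2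
      omega
    set l : List (Fin (2 * m - 1) ⊕ Fin (t + 1)) := (W.sort (· ≤ ·)).map Sum.inl with hl
    have hlmem : ∀ x ∈ l, ∃ i ∈ W, x = Sum.inl i := by
      intro x hx
      rw [hl, List.mem_map] at hx
      obtain ⟨i, hi, rfl⟩ := hx
      exact ⟨i, (Finset.mem_sort _).1 hi, rfl⟩
    have hllen : l.length = m := by rw [hl, List.length_map, Finset.length_sort, hWc]
    have hlne : l ≠ [] := by
      intro h
      rw [h] at hllen
      simp at hllen
    have hlnd : l.Nodup := (Finset.sort_nodup _ _).map Sum.inl_injective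
    have hnd : ((Sum.inr r : Fin (2 * m - 1) ⊕ Fin (t + 1)) :: l).Nodup := by
      rw [List.nodup_cons]
      refine ⟨fun h => ?_, hlnd⟩
      obtain ⟨i, _, h⟩ := hlmem _ h
      exact absurd h (by simp)
    have hpl : l.Pairwise (RR (2 * m - 1) (t + 1)) := by
      rw [hl, List.pairwise_map]
      exact (Finset.sortedLT_sort W).pairwise
    have hpw : ((Sum.inr r : Fin (2 * m - 1) ⊕ Fin (t + 1)) :: l).Pairwise
        (RR (2 * m - 1) (t + 1)) := by
      rw [List.pairwise_cons]
      refine ⟨fun x hx => ?_, hpl⟩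
      obtain ⟨i, _, rfl⟩ := hlmem _ hx
      exact trivial
    obtain ⟨v, c, hcyc, hsup, hv⟩ := exists_cycle (wt g (a - m • g)) X l (Sum.inr r) hlne hnd hpw
      (by
        intro y hy
        obtain ⟨i, _, rfl⟩ := hlmem _ hy
        exact trivial)
    have hsum : (l.map (wt g (a - m • g))).sum = m • g := by
      have e1 : l.map (wt g (a - m • g)) = List.replicate m g := by
        refine List.eq_replicate_iff.2 ⟨by rw [List.length_map, hllen], fun b hb => ?_⟩
        rw [List.mem_map] at hb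
        obtain ⟨x, hx, rfl⟩ := hb
        obtain ⟨i, _, rfl⟩ := hlmem _ hx
        simp [wt]
      rw [e1, List.sum_replicate]
    have hwr : wt g (a - m • g) (Sum.inr r : Fin (2 * m - 1) ⊕ Fin (t + 1)) = a - m • g := by
      simp [wt]
    have hmem : value (lab (wt g (a - m • g)) X) c ∈ A := by
      rw [hv, hsum, hwr]
      simpa using ha
    obtain ⟨y, hyS, hyc⟩ := hhit ⟨v, c, hcyc, hmem⟩
    have hyK : y.1 ∈ K := Finset.mem_image.2 ⟨y, hyS, rfl⟩
    have hy := hsup y hyc
    rw [List.mem_cons] at hy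
    rcases hy with hy | hy
    · rw [hy] at hyK
      exact hr hyK
    · obtain ⟨i, hi, hy'⟩ := hlmem _ hy
      rw [hy'] at hyK
      exact (Finset.mem_filter.1 (hW hi)).2 hyK

end main

/-! ### Avoidable sets -/

/-- The two-sided form: some `z` satisfies `y + j z ∉ A` for all `y ∈ Y` and all integers `j` with
`0 < |j| ≤ N`. -/
def TwoSided {Γ : Type u} [AddCommGroup Γ] (A : Set Γ) : Prop :=
  ∀ (Y : Finset Γ) (N : ℕ), ∃ z : Γ, ∀ y ∈ Y, ∀ j : ℤ, j ≠ 0 → |j| ≤ N → y + j • z ∉ A

/-- Lower density zero of a set of integers: `liminf |A ∩ [-M, M]| / M = 0`. -/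
def LowerDensityZero (A : Set ℤ) : Prop :=
  ∀ ε : ℝ, 0 < ε → ∀ M₀ : ℕ, ∃ M : ℕ, M₀ ≤ M ∧
    ((A ∩ Set.Icc (-(M : ℤ)) M).ncard : ℝ) ≤ ε * M

lemma TwoSided.avoidable {Γ : Type u} [AddCommGroup Γ] {A : Set Γ} (h : TwoSided A) :
    Avoidable A := by
  intro Y N
  obtain ⟨z, hz⟩ := h Y N
  refine ⟨z, fun y hy n h1 hn => ?_⟩
  have := hz y hy (n : ℤ) (by exact_mod_cast (by omega : n ≠ 0)) (by
    rw [abs_of_nonneg (by positivity)]
    exact_mod_cast hn)
  rwa [natCast_zsmul] at this

/-- A set of integers which is bounded below is avoidable. -/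
lemma avoidable_of_bddBelow {A : Set ℤ} (h : BddBelow A) : Avoidable A := by
  intro Y N
  obtain ⟨b, hb⟩ := h
  obtain ⟨K, hK⟩ : ∃ K : ℤ, ∀ y ∈ Y, y ≤ K := by
    obtain ⟨K, hK⟩ := Y.bddAbove
    exact ⟨K, fun y hy => hK hy⟩
  refine ⟨-(|b| + |K| + 1), fun y hy n h1 _ hmem => ?_⟩
  have h2 := hb hmem
  have h3 := hK y hy
  have h4 := neg_abs_le b
  have h5 := le_abs_self K
  have h6 : (1 : ℤ) ≤ n := by exact_mod_cast h1
  have h7 : (0 : ℤ) ≤ |b| + |K| + 1 := by positivity
  have h8 : n • (-(|b| + |K| + 1)) ≤ -(|b| + |K| + 1) := by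
    rw [nsmul_eq_mul]
    nlinarith
  linarith

/-- A set of integers which is bounded above is avoidable. -/
lemma avoidable_of_bddAbove {A : Set ℤ} (h : BddAbove A) : Avoidable A := by
  intro Y N
  obtain ⟨b, hb⟩ := h
  obtain ⟨K, hK⟩ : ∃ K : ℤ, ∀ y ∈ Y, K ≤ y := by
    obtain ⟨K, hK⟩ := Y.bddBelow
    exact ⟨K, fun y hy => hK hy⟩
  refine ⟨|b| + |K| + 1, fun y hy n h1 _ hmem => ?_⟩
  have h2 := hb hmem
  have h3 := hK y hy
  have h4 := le_abs_self b
  have h5 := neg_abs_le K
  have h6 : (1 : ℤ) ≤ n := by exact_mod_cast h1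
  have h7 : (0 : ℤ) ≤ |b| + |K| + 1 := by positivity
  have h8 : |b| + |K| + 1 ≤ n • (|b| + |K| + 1) := by
    rw [nsmul_eq_mul]
    nlinarith
  linarith

section avoid

variable {Γ : Type u} [AddCommGroup Γ]

/-- A finite set is avoidable if the group has unbounded exponent. -/
theorem twoSided_of_finite {A : Set Γ} (hA : A.Finite)
    (hexp : ∀ n : ℕ, 0 < n → ∃ z : Γ, n • z ≠ 0) : TwoSided A := by
  classical
  intro Y N
  set D : Finset Γ := (hA.toFinset ×ˢ Y).image (fun p => p.1 - p.2) with hD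
  have hDmem : ∀ y ∈ Y, ∀ w : Γ, y + w ∈ A → w ∈ D := by
    intro y hy w hw
    rw [hD, Finset.mem_image]
    refine ⟨(y + w, y), Finset.mem_product.2 ⟨hA.mem_toFinset.2 hw, hy⟩, ?_⟩
    simp
  by_cases hinf : ∃ z₀ : Γ, ∀ n : ℤ, n ≠ 0 → n • z₀ ≠ 0
  · obtain ⟨z₀, hz₀⟩ := hinf
    have hinj : Function.Injective (fun n : ℤ => n • z₀) := by
      intro n n' h
      by_contra hne
      refine hz₀ (n - n') (sub_ne_zero.2 hne) ?_
      rw [sub_smul]
      exact sub_eq_zero.2 h
    have hfin : ((fun n : ℤ => n • z₀) ⁻¹' (D : Set Γ)).Finite :=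
      D.finite_toSet.preimage hinj.injOn
    obtain ⟨K, hK⟩ := (hfin.image Int.natAbs).bddAbove
    refine ⟨((K + 1 : ℕ) : ℤ) • z₀, fun y hy j hj0 hjN hmem => ?_⟩
    have h1 := hDmem y hy _ hmem
    rw [← mul_smul] at h1
    have h2 : (j * ((K + 1 : ℕ) : ℤ)).natAbs ≤ K := hK ⟨_, h1, rfl⟩
    rw [Int.natAbs_mul, Int.natAbs_natCast] at h2
    have h3 : 1 ≤ j.natAbs := Int.natAbs_pos.2 hj0
    nlinarith
  · push Not at hinf
    choose n hn0 hn using hinf
    have hP : 0 < N.factorial * ∏ d ∈ D, (n d).natAbs :=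
      Nat.mul_pos (Nat.factorial_pos N) (Finset.prod_pos fun d _ => Int.natAbs_pos.2 (hn0 d))
    obtain ⟨z, hz⟩ := hexp _ hP
    refine ⟨z, fun y hy j hj0 hjN hmem => hz ?_⟩
    have h1 := hDmem y hy _ hmem
    have h2 : j.natAbs ∣ N.factorial :=
      Nat.dvd_factorial (Int.natAbs_pos.2 hj0) (by
        rw [Int.abs_eq_natAbs] at hjN
        exact_mod_cast hjN)
    have h3 : (n (j • z)).natAbs ∣ ∏ d ∈ D, (n d).natAbs := Finset.dvd_prod_of_mem _ h1
    obtain ⟨q, hq⟩ := mul_dvd_mul h2 h3
    rw [hq, mul_comm, mul_smul]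
    have h4 : (j.natAbs * (n (j • z)).natAbs) • z = 0 := by
      have h5 : ((n (j • z)) * j) • z = 0 := by rw [mul_smul]; exact hn (j • z)
      rw [← natCast_zsmul, Nat.cast_mul, Int.natCast_natAbs, Int.natCast_natAbs, ← abs_mul,
        mul_comm]
      rcases abs_choice (n (j • z) * j) with h | h
      · rw [h, h5]
      · rw [h, neg_smul, h5, neg_zero]
    rw [h4, smul_zero]

open Cardinal in
/-- A set of smaller cardinality than the group is avoidable in an infinite torsion-free group. -/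
theorem twoSided_of_card [Infinite Γ] {A : Set Γ} (hT : ∀ (n : ℤ) (z : Γ), n • z = 0 → n = 0 ∨ z = 0)
    (hA : #A < #Γ) : TwoSided A := by
  classical
  intro Y N
  by_contra hcon
  push Not at hcon
  let J : Finset ℤ := (Finset.Icc (-(N : ℤ)) N).filter (fun j => j ≠ 0)
  let B : (Y ×ˢ J : Finset (Γ × ℤ)) → Set Γ := fun p => {z | p.1.1 + p.1.2 • z ∈ A}
  have hcov : (⋃ p, B p) = Set.univ := by
    rw [Set.eq_univ_iff_forall]
    intro z
    obtain ⟨y, hy, j, hj0, hjN, hmem⟩ := hcon z
    rw [Set.mem_iUnion]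
    refine ⟨⟨(y, j), Finset.mem_product.2 ⟨hy, ?_⟩⟩, hmem⟩
    rw [Finset.mem_filter, Finset.mem_Icc]
    exact ⟨abs_le.1 hjN, hj0⟩
  have hB : ∀ p, #(B p) ≤ #A := by
    intro p
    have hj0 : p.1.2 ≠ 0 := (Finset.mem_filter.1 (Finset.mem_product.1 p.2).2).2
    refine Cardinal.mk_le_of_injective (f := fun z : B p => (⟨p.1.1 + p.1.2 • z.1, z.2⟩ : A)) ?_
    intro z z' h
    have h1 : p.1.1 + p.1.2 • z.1 = p.1.1 + p.1.2 • z'.1 := congrArg Subtype.val h
    have h2 : p.1.2 • (z.1 - z'.1) = 0 := by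
      rw [smul_sub]
      exact sub_eq_zero.2 (add_left_cancel h1)
    rcases hT _ _ h2 with h3 | h3
    · exact absurd h3 hj0
    · exact Subtype.ext (sub_eq_zero.1 h3)
  have h1 : #Γ ≤ #(Y ×ˢ J : Finset (Γ × ℤ)) * #A := by
    calc #Γ = #(Set.univ : Set Γ) := Cardinal.mk_univ.symm
      _ = #(⋃ p, B p) := by rw [hcov]
      _ ≤ #(Y ×ˢ J : Finset (Γ × ℤ)) * ⨆ p, #(B p) := Cardinal.mk_iUnion_le B
      _ ≤ #(Y ×ˢ J : Finset (Γ × ℤ)) * #A := by
          gcongr
          exact ciSup_le' hB
  have h2 : #(Y ×ˢ J : Finset (Γ × ℤ)) < #Γ :=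
    lt_of_lt_of_le (Cardinal.lt_aleph0_of_finite _) (Cardinal.aleph0_le_mk Γ)
  exact absurd h1 (not_le.2 (Cardinal.mul_lt_of_lt (Cardinal.aleph0_le_mk Γ) h2 hA))

end avoid

/-- A set of integers of lower density zero is avoidable. -/
theorem twoSided_of_density {A : Set ℤ} (hA : LowerDensityZero A) : TwoSided A := by
  classical
  intro Y N
  obtain ⟨K, hK⟩ : ∃ K : ℕ, ∀ y ∈ Y, |y| ≤ K := by
    refine ⟨∑ y ∈ Y, y.natAbs, fun y hy => ?_⟩
    rw [Int.abs_eq_natAbs]
    exact_mod_cast Finset.single_le_sum (f := fun y : ℤ => y.natAbs) (fun _ _ => Nat.zero_le _) hy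
  set c : ℕ := 16 * (N + 1) * (N + 1) * (Y.card + 1) with hc
  have hc0 : (0 : ℝ) < c := by rw [hc]; positivity
  obtain ⟨M, hM, hAM⟩ := hA (1 / c) (by positivity) (2 * K + 4 * (N + 1))
  set J : Finset ℤ := (Finset.Icc (-(N : ℤ)) N).filter (fun j => j ≠ 0) with hJ
  have hJc : J.card ≤ 2 * N + 1 := by
    calc J.card ≤ (Finset.Icc (-(N : ℤ)) N).card := Finset.card_filter_le _ _
      _ = 2 * N + 1 := by simp; omega
  set Z : ℕ := M / (2 * (N + 1)) with hZ
  set a₀ : ℕ := (A ∩ Set.Icc (-(M : ℤ)) M).ncard with ha₀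
  have hfinA : (A ∩ Set.Icc (-(M : ℤ)) M).Finite := (Set.finite_Icc _ _).subset Set.inter_subset_right
  by_contra hcon
  push Not at hcon
  -- every `z ∈ [1, Z]` is bad
  have hbad : Finset.Icc (1 : ℤ) Z ⊆ (Y ×ˢ J).biUnion
      (fun p => (Finset.Icc (1 : ℤ) Z).filter (fun z => p.1 + p.2 * z ∈ A)) := by
    intro z hz
    obtain ⟨y, hy, j, hj0, hjN, hmem⟩ := hcon z
    rw [Finset.mem_biUnion]
    refine ⟨(y, j), Finset.mem_product.2 ⟨hy, ?_⟩, Finset.mem_filter.2 ⟨hz, by simpa using hmem⟩⟩
    rw [hJ, Finset.mem_filter, Finset.mem_Icc]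
    exact ⟨abs_le.1 hjN, hj0⟩
  have hZM : (N : ℤ) * Z + K ≤ M := by
    have h1 : Z * (2 * (N + 1)) ≤ M := Nat.div_mul_le_self _ _
    have h2 : 2 * (N * Z + K) ≤ 2 * M := by nlinarith
    have h3 : N * Z + K ≤ M := by omega
    exact_mod_cast h3
  have hone : ∀ p ∈ Y ×ˢ J, ((Finset.Icc (1 : ℤ) Z).filter (fun z => p.1 + p.2 * z ∈ A)).card ≤ a₀ := by
    intro p hp
    have hy := hK _ (Finset.mem_product.1 hp).1
    have hj := Finset.mem_filter.1 (Finset.mem_product.1 hp).2
    have hj1 := Finset.mem_Icc.1 hj.1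
    rw [ha₀, Set.ncard_eq_toFinset_card _ hfinA]
    refine Finset.card_le_card_of_injOn (fun z => p.1 + p.2 * z) ?_ ?_
    · intro z hz
      have hz' := Finset.mem_filter.1 (Finset.mem_coe.1 hz)
      have hz1 := Finset.mem_Icc.1 hz'.1
      rw [Finset.mem_coe, Set.Finite.mem_toFinset]
      refine ⟨hz'.2, ?_⟩
      have hjz : |p.2 * z| ≤ N * Z := by
        rw [abs_mul]
        have h1 : |p.2| ≤ N := abs_le.2 hj1
        have h2 : |z| ≤ Z := by rw [abs_of_nonneg (by omega)]; exact hz1.2
        exact mul_le_mul h1 h2 (abs_nonneg _) (by positivity)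
      have h3 : |p.1 + p.2 * z| ≤ M := by
        calc |p.1 + p.2 * z| ≤ |p.1| + |p.2 * z| := abs_add_le _ _
          _ ≤ K + N * Z := add_le_add hy hjz
          _ ≤ M := by linarith
      exact Set.mem_Icc.2 (abs_le.1 h3)
    · intro z _ z' _ h
      have h1 : p.1 + p.2 * z = p.1 + p.2 * z' := h
      have h2 : p.2 * z = p.2 * z' := by linarith
      exact mul_left_cancel₀ hj.2 h2
  have hZle : Z ≤ Y.card * (2 * N + 1) * a₀ := by
    calc Z = (Finset.Icc (1 : ℤ) Z).card := by simp
      _ ≤ _ := Finset.card_le_card hbad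
      _ ≤ ∑ p ∈ Y ×ˢ J, _ := Finset.card_biUnion_le
      _ ≤ ∑ p ∈ Y ×ˢ J, a₀ := Finset.sum_le_sum hone
      _ = Y.card * J.card * a₀ := by rw [Finset.sum_const, Finset.card_product, smul_eq_mul]
      _ ≤ Y.card * (2 * N + 1) * a₀ := by gcongr
  have hMlt : M < (Z + 1) * (2 * (N + 1)) := by
    have := Nat.lt_succ_iff.2 (le_refl (M / (2 * (N + 1))))
    rw [Nat.div_lt_iff_lt_mul (by positivity)] at this
    exact this
  have hA2 : (a₀ : ℝ) * c ≤ M := by
    have := hAM
    rw [div_mul_eq_mul_div, one_mul, le_div_iff₀ hc0] at this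
    exact this
  have hA3 : a₀ * c ≤ M := by exact_mod_cast hA2
  have h1 : 2 * (Z * (4 * (N + 1))) ≤ M := by
    have h2 : Z * (8 * (N + 1)) ≤ a₀ * c := by
      calc Z * (8 * (N + 1)) ≤ (Y.card * (2 * N + 1) * a₀) * (8 * (N + 1)) :=
            Nat.mul_le_mul_right _ hZle
        _ ≤ _ := by
            rw [hc]
            have h3 : Y.card * (2 * N + 1) * (8 * (N + 1)) ≤
                16 * (N + 1) * (N + 1) * (Y.card + 1) := by
              nlinarith [Nat.zero_le (Y.card * N), Nat.zero_le (Y.card * N * N),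
                Nat.zero_le (N * N)]
            calc Y.card * (2 * N + 1) * a₀ * (8 * (N + 1)) =
                a₀ * (Y.card * (2 * N + 1) * (8 * (N + 1))) := by ring
              _ ≤ _ := Nat.mul_le_mul_left _ h3
    calc 2 * (Z * (4 * (N + 1))) = Z * (8 * (N + 1)) := by ring
      _ ≤ a₀ * c := h2
      _ ≤ M := hA3
  nlinarith

/-- For the empty set all the properties hold trivially. -/
lemma EP_empty {Γ : Type u} [AddCommGroup Γ] (s : ℕ) : EP (∅ : Set Γ) s := by
  refine ⟨fun _ => 0, fun V _ G γ k _ => Or.inr ⟨∅, by simp, fun c => ?_⟩⟩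
  exact absurd c.mem (Set.notMem_empty _)

/-- **Main result.** Let `A` be a subset of an abelian group `Γ` such that for every finite `Y ⊆ Γ` and
every `N` there is a `z ∈ Γ` with `y + n z ∉ A` for all `y ∈ Y` and all `1 ≤ n ≤ N`. Then for every
`s ≥ 1` the pair `(Γ, A)` has the property `EP_s` only if `A` is empty. In particular the implication
`EP_s → EP_3` holds for all these pairs. -/
theorem result (Γ : Type u) [AddCommGroup Γ] (A : Set Γ) (hA : Avoidable A) (s : ℕ) (hs : 1 ≤ s) :
    EP A s ↔ A = ∅ := by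
  refine ⟨fun h => ?_, ?_⟩
  · by_contra hne
    exact not_EP (Set.nonempty_iff_ne_empty.2 hne) hA s hs h
  · rintro rfl
    exact EP_empty s

end Pool.Agent.Results.MP_45fa85_co.OneSidedThin
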